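import Mathlib

/-!
Definitions for MP_e5c236: sums of positive integers whose product is a perfect `k`-th power.
-/

namespace Pool.Agent.Lib.MP_e5c236

/-- `n` is `s`-representable for `k`: `n` is a sum of `s` positive integers whose product is the
`k`-th power of a positive integer. -/
def IsRep (k s n : ℕ) : Prop :=
  ∃ x : Fin s → ℕ, (∀ i, 0 < x i) ∧ n = ∑ i, x i ∧ ∃ y : ℕ, 0 < y ∧ ∏ i, x i = y ^ k

/-- `G'(k)`: the least positive integer `s` such that every sufficiently large integer is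
`t`-representable for `k` for some `1 ≤ t ≤ s`. -/
noncomputable def GPrime (k : ℕ) : ℕ :=
  sInf {s | 1 ≤ s ∧ ∃ N : ℕ, ∀ n ≥ N, ∃ t, 1 ≤ t ∧ t ≤ s ∧ IsRep k t n}

end Pool.Agent.Lib.MP_e5c236
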