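import Mathlib

/-!
The divisor bound `d(n)^k ≤ C n`.
-/

namespace Pool.Agent.Lib.MP_e5c236

lemma succ_pow_le (k e : ℕ) : (e + 1) ^ k ≤ (k.factorial * 2 ^ (k + 1)) * 2 ^ e := by
  have h1 := Real.pow_div_factorial_le_exp (((e : ℝ) + 1) * Real.log 2)
    (by have := Real.log_pos (show (1 : ℝ) < 2 by norm_num); positivity) k
  have h2 : Real.exp (((e : ℝ) + 1) * Real.log 2) = 2 ^ (e + 1) := by
    rw [mul_comm, Real.exp_mul, Real.exp_log (by norm_num)]
    exact_mod_cast Real.rpow_natCast 2 (e + 1)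
  rw [h2, mul_pow] at h1
  have hlog : (1 / 2 : ℝ) ≤ Real.log 2 := by
    have := Real.log_two_gt_d9; linarith
  have hfac : (0 : ℝ) < (k.factorial : ℝ) := by exact_mod_cast Nat.factorial_pos k
  rw [div_le_iff₀ hfac] at h1
  have h3 : ((e : ℝ) + 1) ^ k * (1 / 2) ^ k ≤ ((e : ℝ) + 1) ^ k * Real.log 2 ^ k :=
    mul_le_mul_of_nonneg_left (pow_le_pow_left₀ (by norm_num) hlog k) (by positivity)
  have h4 : ((e : ℝ) + 1) ^ k * (1 / 2) ^ k ≤ 2 ^ (e + 1) * (k.factorial : ℝ) := le_trans h3 h1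
  have h5 : ((e : ℝ) + 1) ^ k ≤ (k.factorial * 2 ^ (k + 1)) * 2 ^ e := by
    have h6 : ((e : ℝ) + 1) ^ k = (((e : ℝ) + 1) ^ k * (1 / 2) ^ k) * 2 ^ k := by
      rw [mul_assoc, ← mul_pow]; norm_num
    rw [h6]
    calc _ ≤ (2 ^ (e + 1) * (k.factorial : ℝ)) * 2 ^ k :=
          mul_le_mul_of_nonneg_right h4 (by positivity)
      _ = (k.factorial * 2 ^ (k + 1)) * 2 ^ e := by ring
  exact_mod_cast h5

/-- `d(n)^k ≤ C n` with a constant depending only on `k`. -/
theorem divisor_bound (k : ℕ) : ∃ C : ℕ, 0 < C ∧ ∀ n : ℕ, n ≠ 0 → n.divisors.card ^ k ≤ C * n := by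
  set K := k.factorial * 2 ^ (k + 1) with hK
  have hK1 : 1 ≤ K := Nat.one_le_iff_ne_zero.mpr (by positivity)
  refine ⟨K ^ (2 ^ k), by positivity, ?_⟩
  intro n hn
  rw [Nat.card_divisors hn, ← Finset.prod_pow]
  have h1 : ∀ p ∈ n.primeFactors, (n.factorization p + 1) ^ k ≤
      (if p < 2 ^ k then K else 1) * p ^ (n.factorization p) := by
    intro p hp
    have hp2 := (Nat.prime_of_mem_primeFactors hp).two_le
    split_ifs with h
    · refine le_trans (succ_pow_le k _) ?_
      exact Nat.mul_le_mul_left _ (Nat.pow_le_pow_left hp2 _)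
    · push Not at h
      rw [one_mul]
      calc (n.factorization p + 1) ^ k ≤ (2 ^ (n.factorization p)) ^ k :=
            Nat.pow_le_pow_left (Nat.lt_two_pow_self) k
        _ = (2 ^ k) ^ (n.factorization p) := by rw [← pow_mul, ← pow_mul, mul_comm]
        _ ≤ p ^ (n.factorization p) := Nat.pow_le_pow_left h _
  refine le_trans (Finset.prod_le_prod' h1) ?_
  rw [Finset.prod_mul_distrib]
  have h2 : ∏ p ∈ n.primeFactors, p ^ n.factorization p = n := Nat.prod_factorization_pow_eq_self hn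
  rw [h2]
  refine Nat.mul_le_mul_right _ ?_
  rw [Finset.prod_ite, Finset.prod_const, Finset.prod_const_one, mul_one]
  refine Nat.pow_le_pow_right hK1 ?_
  calc (n.primeFactors.filter (fun p => p < 2 ^ k)).card ≤ (Finset.range (2 ^ k)).card := by
        apply Finset.card_le_card
        intro p hp
        rw [Finset.mem_range]
        exact (Finset.mem_filter.mp hp).2
    _ = 2 ^ k := Finset.card_range _

end Pool.Agent.Lib.MP_e5c236
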