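import Pool.Agent.Lib.MP_e5c236.Upper
import Pool.Agent.Lib.MP_e5c236.DivisorBound

/-!
`G'(4) ≥ 4`: only `O(N^{15/16})` integers up to `N` are `t`-representable with `t ≤ 3`.
-/

namespace Pool.Agent.Lib.MP_e5c236

/-- the numbers obtained from factorisations of `y⁴` into at most three factors -/
def fac3 (y : ℕ) : Finset ℕ :=
  ((y ^ 4).divisors ×ˢ (y ^ 4).divisors).image (fun p => p.1 + p.2 + y ^ 4 / (p.1 * p.2)) ∪
  ((y ^ 4).divisors.image (fun d => d + y ^ 4 / d) ∪ {y ^ 4})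

lemma fac3_card (y : ℕ) (hy : 0 < y) : (fac3 y).card ≤ 3 * (y ^ 4).divisors.card ^ 2 := by
  have hd : 1 ≤ (y ^ 4).divisors.card := by
    rw [Nat.one_le_iff_ne_zero, Finset.card_ne_zero]
    exact ⟨1, by simp; omega⟩
  have h1 : (((y ^ 4).divisors ×ˢ (y ^ 4).divisors).image
      (fun p => p.1 + p.2 + y ^ 4 / (p.1 * p.2))).card ≤ (y ^ 4).divisors.card ^ 2 := by
    refine le_trans Finset.card_image_le ?_
    rw [Finset.card_product, sq]
  have h2 : ((y ^ 4).divisors.image (fun d => d + y ^ 4 / d)).card ≤ (y ^ 4).divisors.card ^ 2 := by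
    refine le_trans Finset.card_image_le ?_
    nlinarith
  have h3 : ({y ^ 4} : Finset ℕ).card ≤ (y ^ 4).divisors.card ^ 2 := by
    rw [Finset.card_singleton]; nlinarith
  unfold fac3
  have h4 := Finset.card_union_le ((y ^ 4).divisors.image (fun d => d + y ^ 4 / d)) {y ^ 4}
  have h5 := Finset.card_union_le (((y ^ 4).divisors ×ˢ (y ^ 4).divisors).image
      (fun p => p.1 + p.2 + y ^ 4 / (p.1 * p.2)))
      ((y ^ 4).divisors.image (fun d => d + y ^ 4 / d) ∪ {y ^ 4})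
  omega

lemma rep_mem_fac3 {T n t : ℕ} (hT : n ≤ T ^ 16) (ht1 : 1 ≤ t) (ht3 : t ≤ 3)
    (h : IsRep 4 t n) : ∃ y, 0 < y ∧ y ≤ T ^ 12 ∧ n ∈ fac3 y := by
  obtain ⟨x, hx, hn, y, hy, hxy⟩ := h
  have hle : ∀ i, x i ≤ T ^ 16 := by
    intro i
    refine le_trans ?_ hT
    rw [hn]
    exact Finset.single_le_sum (f := x) (fun _ _ => Nat.zero_le _) (Finset.mem_univ i)
  have hTpos : 0 < T := by
    rcases Nat.eq_zero_or_pos T with rfl | h
    · exfalso
      have := hx ⟨0, by omega⟩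
      have h2 := hle ⟨0, by omega⟩
      simp at h2
      omega
    · exact h
  have hy4 : y ^ 4 ≤ (T ^ 12) ^ 4 := by
    rw [← hxy]
    calc ∏ i, x i ≤ ∏ _i : Fin t, T ^ 16 := Finset.prod_le_prod' fun i _ => hle i
      _ = (T ^ 16) ^ t := by simp
      _ ≤ (T ^ 16) ^ 3 := Nat.pow_le_pow_right (by positivity) ht3
      _ = (T ^ 12) ^ 4 := by ring
  have hyT : y ≤ T ^ 12 := by
    by_contra hcon
    push Not at hcon
    have := Nat.pow_lt_pow_left hcon (show 4 ≠ 0 by norm_num)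
    omega
  refine ⟨y, hy, hyT, ?_⟩
  have hy0 : y ^ 4 ≠ 0 := by positivity
  unfold fac3
  interval_cases t
  · -- t = 1
    simp at hn hxy
    rw [Finset.mem_union, Finset.mem_union]
    right; right
    rw [Finset.mem_singleton, hn, hxy]
  · -- t = 2
    rw [Fin.sum_univ_two] at hn
    rw [Fin.prod_univ_two] at hxy
    rw [Finset.mem_union, Finset.mem_union]
    right; left
    rw [Finset.mem_image]
    refine ⟨x 0, ?_, ?_⟩
    · rw [Nat.mem_divisors]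
      exact ⟨⟨x 1, hxy.symm⟩, hy0⟩
    · rw [← hxy, Nat.mul_div_cancel_left _ (hx 0), hn]
  · -- t = 3
    rw [Fin.sum_univ_three] at hn
    rw [Fin.prod_univ_three] at hxy
    rw [Finset.mem_union]
    left
    rw [Finset.mem_image]
    refine ⟨(x 0, x 1), ?_, ?_⟩
    · rw [Finset.mem_product, Nat.mem_divisors, Nat.mem_divisors]
      refine ⟨⟨⟨x 1 * x 2, ?_⟩, hy0⟩, ⟨⟨x 0 * x 2, ?_⟩, hy0⟩⟩
      · rw [← hxy]; ring
      · rw [← hxy]; ring
    · dsimp only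
      rw [← hxy, Nat.mul_div_cancel_left _ (Nat.mul_pos (hx 0) (hx 1)), hn]

theorem not_eventually_three : ¬ ∃ N : ℕ, ∀ n ≥ N, ∃ t, 1 ≤ t ∧ t ≤ 3 ∧ IsRep 4 t n := by
  rintro ⟨N, hN⟩
  obtain ⟨C, hC, hdiv⟩ := divisor_bound 32
  obtain ⟨T, hT⟩ : ∃ T, T = 3 * C + N + 1 := ⟨_, rfl⟩
  have hTpos : 0 < T := by omega
  -- all of `[N, T^16]` is covered
  have hsub : Finset.Icc N (T ^ 16) ⊆ (Finset.Icc 1 (T ^ 12)).biUnion fac3 := by
    intro n hn
    rw [Finset.mem_Icc] at hn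
    obtain ⟨t, ht1, ht3, hrep⟩ := hN n hn.1
    obtain ⟨y, hy0, hy1, hy2⟩ := rep_mem_fac3 hn.2 ht1 ht3 hrep
    rw [Finset.mem_biUnion]
    exact ⟨y, Finset.mem_Icc.mpr ⟨hy0, hy1⟩, hy2⟩
  have hcard := Finset.card_le_card hsub
  rw [Nat.card_Icc] at hcard
  have hb : ∀ y ∈ Finset.Icc 1 (T ^ 12), (fac3 y).card ≤ 3 * (C * T ^ 3) := by
    intro y hy
    rw [Finset.mem_Icc] at hy
    refine le_trans (fac3_card y (by omega)) ?_
    refine Nat.mul_le_mul_left 3 ?_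
    have h1 := hdiv (y ^ 4) (by have : 0 < y := by omega
                                positivity)
    have h2 : y ^ 4 ≤ (T ^ 12) ^ 4 := Nat.pow_le_pow_left hy.2 4
    have h3 : ((y ^ 4).divisors.card ^ 2) ^ 16 ≤ (C * T ^ 3) ^ 16 := by
      calc ((y ^ 4).divisors.card ^ 2) ^ 16 = (y ^ 4).divisors.card ^ 32 := by rw [← pow_mul]
        _ ≤ C * y ^ 4 := h1
        _ ≤ C * (T ^ 12) ^ 4 := Nat.mul_le_mul_left _ h2
        _ ≤ C ^ 16 * (T ^ 12) ^ 4 := Nat.mul_le_mul_right _ (Nat.le_self_pow (by norm_num) C)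
        _ = (C * T ^ 3) ^ 16 := by ring
    by_contra hcon
    push Not at hcon
    have := Nat.pow_lt_pow_left hcon (show 16 ≠ 0 by norm_num)
    omega
  have hcard2 : ((Finset.Icc 1 (T ^ 12)).biUnion fac3).card ≤ 3 * C * T ^ 15 := by
    refine le_trans (Finset.card_biUnion_le_card_mul _ _ _ hb) ?_
    rw [Nat.card_Icc]
    have : T ^ 12 + 1 - 1 = T ^ 12 := by omega
    rw [this]
    apply le_of_eq; ring
  have hfin : T ^ 16 + 1 - N ≤ 3 * C * T ^ 15 := le_trans hcard hcard2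
  have h15 : 1 ≤ T ^ 15 := Nat.one_le_pow _ _ hTpos
  have h16 : T ^ 16 = 3 * C * T ^ 15 + N * T ^ 15 + T ^ 15 := by
    have : T ^ 16 = T * T ^ 15 := by ring
    rw [this]
    nth_rewrite 1 [hT]
    ring
  have hNT : N ≤ N * T ^ 15 := Nat.le_mul_of_pos_right N h15
  omega

theorem four_le_GPrime : 4 ≤ GPrime 4 := by
  by_contra hcon
  push Not at hcon
  have hne : {s | 1 ≤ s ∧ ∃ N : ℕ, ∀ n ≥ N, ∃ t, 1 ≤ t ∧ t ≤ s ∧ IsRep 4 t n}.Nonempty :=
    ⟨5, by norm_num, 60000, fun n hn => ⟨5, by norm_num, le_refl _, rep_five n hn⟩⟩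
  obtain ⟨h1, N, hN⟩ := Nat.sInf_mem hne
  apply not_eventually_three
  refine ⟨N, fun n hn => ?_⟩
  obtain ⟨t, ht1, ht2, ht3⟩ := hN n hn
  exact ⟨t, ht1, le_trans ht2 (by unfold GPrime at hcon; omega), ht3⟩

theorem GPrime_bounds : 4 ≤ GPrime 4 ∧ GPrime 4 ≤ 5 := ⟨four_le_GPrime, GPrime_le_five⟩

end Pool.Agent.Lib.MP_e5c236
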