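import Pool.Agent.Lib.MP_e5c236.Defs

/-!
`G'(4) ≤ 5`: every `n ≥ 15000` is `u+u+u+4u+4m⁴` or `u+u+2u+3u+216m⁴`.
-/

namespace Pool.Agent.Lib.MP_e5c236

lemma rep_first (u m : ℕ) (hu : 0 < u) (hm : 0 < m) : IsRep 4 5 (7 * u + 4 * m ^ 4) := by
  refine ⟨![u, u, u, 4 * u, 4 * m ^ 4], ?_, ?_, 2 * u * m, by positivity, ?_⟩
  · intro i; fin_cases i <;> simp <;> positivity
  · simp [Fin.sum_univ_succ]; ring
  · simp [Fin.prod_univ_succ]; ring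

lemma rep_second (u m : ℕ) (hu : 0 < u) (hm : 0 < m) : IsRep 4 5 (7 * u + 216 * m ^ 4) := by
  refine ⟨![u, u, 2 * u, 3 * u, 216 * m ^ 4], ?_, ?_, 6 * u * m, by positivity, ?_⟩
  · intro i; fin_cases i <;> simp <;> positivity
  · simp [Fin.sum_univ_succ]; ring
  · simp [Fin.prod_univ_succ]; ring

lemma rep_five (n : ℕ) (hn : 60000 ≤ n) : IsRep 4 5 n := by
  have h7 : n % 7 = 0 ∨ n % 7 = 1 ∨ n % 7 = 2 ∨ n % 7 = 3 ∨ n % 7 = 4 ∨ n % 7 = 5 ∨ n % 7 = 6 := by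
    omega
  rcases h7 with h | h | h | h | h | h | h
  · -- m = 7
    have := rep_first ((n - 4 * 7 ^ 4) / 7) 7 (by omega) (by norm_num)
    have e : 7 * ((n - 4 * 7 ^ 4) / 7) + 4 * 7 ^ 4 = n := by omega
    rwa [e] at this
  · -- 4 m^4 ≡ 1 : m = 3, 4 * 81 = 324 = 7 * 46 + 2; m = 2: 64 = 7*9+1
    have := rep_first ((n - 4 * 2 ^ 4) / 7) 2 (by omega) (by norm_num)
    have e : 7 * ((n - 4 * 2 ^ 4) / 7) + 4 * 2 ^ 4 = n := by omega
    rwa [e] at this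
  · have := rep_first ((n - 4 * 3 ^ 4) / 7) 3 (by omega) (by norm_num)
    have e : 7 * ((n - 4 * 3 ^ 4) / 7) + 4 * 3 ^ 4 = n := by omega
    rwa [e] at this
  · -- 216 m^4 ≡ 3 : m = 3: 216*81 = 17496 = 7*2499+3
    have := rep_second ((n - 216 * 3 ^ 4) / 7) 3 (by omega) (by norm_num)
    have e : 7 * ((n - 216 * 3 ^ 4) / 7) + 216 * 3 ^ 4 = n := by omega
    rwa [e] at this
  · have := rep_first ((n - 4 * 1 ^ 4) / 7) 1 (by omega) (by norm_num)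
    have e : 7 * ((n - 4 * 1 ^ 4) / 7) + 4 * 1 ^ 4 = n := by omega
    rwa [e] at this
  · -- 216 * 16 = 3456 = 7 * 493 + 5
    have := rep_second ((n - 216 * 2 ^ 4) / 7) 2 (by omega) (by norm_num)
    have e : 7 * ((n - 216 * 2 ^ 4) / 7) + 216 * 2 ^ 4 = n := by omega
    rwa [e] at this
  · have := rep_second ((n - 216 * 1 ^ 4) / 7) 1 (by omega) (by norm_num)
    have e : 7 * ((n - 216 * 1 ^ 4) / 7) + 216 * 1 ^ 4 = n := by omega
    rwa [e] at this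

theorem GPrime_le_five : GPrime 4 ≤ 5 := by
  apply Nat.sInf_le
  exact ⟨by norm_num, 60000, fun n hn => ⟨5, by norm_num, le_refl _, rep_five n hn⟩⟩

end Pool.Agent.Lib.MP_e5c236
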